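import Mathlib

/-!
# Reduced bases of saturated lattices of rank two in `ℤ^k` (job 473, MP_95ac01_nt)
-/

set_option autoImplicit false

namespace Pool.Agent.Y796.RP

open Finset

variable {ι : Type*} [Fintype ι]

/-- the square of the Euclidean norm -/
def nn (v : ι → ℤ) : ℤ := ∑ i, v i ^ 2

/-- the scalar product -/
def ip (v w : ι → ℤ) : ℤ := ∑ i, v i * w i

theorem nn_nonneg (v : ι → ℤ) : 0 ≤ nn v := Finset.sum_nonneg fun i _ => sq_nonneg _

theorem sq_le_nn (v : ι → ℤ) (i : ι) : v i ^ 2 ≤ nn v :=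
  Finset.single_le_sum (f := fun i => v i ^ 2) (fun i _ => sq_nonneg _) (Finset.mem_univ i)

theorem lagrange (v w : ι → ℤ) :
    ∑ i, ∑ j, (v i * w j - v j * w i) ^ 2 = 2 * (nn v * nn w - ip v w ^ 2) := by
  have h1 : nn v * nn w = ∑ i, ∑ j, v i ^ 2 * w j ^ 2 := by
    unfold nn; rw [Finset.sum_mul_sum]
  have h2 : nn w * nn v = ∑ i, ∑ j, w i ^ 2 * v j ^ 2 := by
    unfold nn; rw [Finset.sum_mul_sum]
  have h3 : ip v w * ip v w = ∑ i, ∑ j, (v i * w i) * (v j * w j) := by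
    unfold ip; rw [Finset.sum_mul_sum]
  have h4 : 2 * (nn v * nn w - ip v w ^ 2) = nn v * nn w + nn w * nn v - 2 * (ip v w * ip v w) := by ring
  rw [h4, h1, h2, h3, Finset.mul_sum, ← Finset.sum_add_distrib, ← Finset.sum_sub_distrib]
  refine Finset.sum_congr rfl fun i _ => ?_
  rw [Finset.mul_sum, ← Finset.sum_add_distrib, ← Finset.sum_sub_distrib]
  refine Finset.sum_congr rfl fun j _ => ?_
  ring

theorem nn_add (v w : ι → ℤ) (s : ℤ) :
    nn (fun i => w i + s * v i) = nn w + 2 * s * ip v w + s ^ 2 * nn v := by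
  unfold nn ip
  rw [Finset.mul_sum, Finset.mul_sum, ← Finset.sum_add_distrib, ← Finset.sum_add_distrib]
  exact Finset.sum_congr rfl fun i _ => by ring

theorem nn_lin (v w : ι → ℤ) (a b : ℤ) :
    nn (fun i => a * v i + b * w i) = a ^ 2 * nn v + 2 * a * b * ip v w + b ^ 2 * nn w := by
  unfold nn ip
  rw [Finset.mul_sum, Finset.mul_sum, Finset.mul_sum, ← Finset.sum_add_distrib, ← Finset.sum_add_distrib]
  exact Finset.sum_congr rfl fun i _ => by ring

/-- `x` and `y` are integral combinations of `v` and `w` -/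
def PP (x y v w : ι → ℤ) : Prop := ∃ c₁ c₂ c₃ c₄ : ℤ, (∀ i, x i = c₁ * v i + c₂ * w i) ∧
  ∀ i, y i = c₃ * v i + c₄ * w i

theorem exists_min (x y : ι → ℤ) : ∃ v w, PP x y v w ∧ nn v ≤ nn w ∧
    ∀ v' w', PP x y v' w' → nn v + nn w ≤ nn v' + nn w' := by
  classical
  let S : Set ℕ := {n | ∃ v w, PP x y v w ∧ nn v + nn w = n}
  have hS : S.Nonempty := by
    refine ⟨(nn x + nn y).toNat, x, y, ⟨1, 0, 0, 1, by simp, by simp⟩, ?_⟩
    rw [Int.toNat_of_nonneg]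
    exact add_nonneg (nn_nonneg _) (nn_nonneg _)
  obtain ⟨v, w, hP, hn⟩ := Nat.sInf_mem hS
  have hmin : ∀ v' w', PP x y v' w' → nn v + nn w ≤ nn v' + nn w' := by
    intro v' w' h'
    have h1 : (nn v' + nn w').toNat ∈ S := by
      refine ⟨v', w', h', ?_⟩
      rw [Int.toNat_of_nonneg]
      exact add_nonneg (nn_nonneg _) (nn_nonneg _)
    have h2 := Nat.sInf_le h1
    rw [hn]
    have h3 : ((nn v' + nn w').toNat : ℤ) = nn v' + nn w' :=
      Int.toNat_of_nonneg (add_nonneg (nn_nonneg _) (nn_nonneg _))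
    rw [← h3]
    exact_mod_cast h2
  rcases le_total (nn v) (nn w) with h | h
  · exact ⟨v, w, hP, h, hmin⟩
  · refine ⟨w, v, ?_, h, fun v' w' h' => ?_⟩
    · obtain ⟨c₁, c₂, c₃, c₄, h1, h2⟩ := hP
      exact ⟨c₂, c₁, c₄, c₃, fun i => by rw [h1]; ring, fun i => by rw [h2]; ring⟩
    · rw [add_comm]
      exact hmin v' w' h'

theorem ip_le {x y v w : ι → ℤ} (hP : PP x y v w)
    (hmin : ∀ v' w', PP x y v' w' → nn v + nn w ≤ nn v' + nn w') : |2 * ip v w| ≤ nn v := by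
  obtain ⟨c₁, c₂, c₃, c₄, h1, h2⟩ := hP
  have key : ∀ s : ℤ, 0 ≤ 2 * s * ip v w + s ^ 2 * nn v := by
    intro s
    have h3 := hmin v (fun i => w i + s * v i) ⟨c₁ - s * c₂, c₂, c₃ - s * c₄, c₄,
      fun i => by rw [h1]; ring, fun i => by rw [h2]; ring⟩
    rw [nn_add] at h3
    linarith
  have k1 := key 1
  have k2 := key (-1)
  rw [abs_le]
  constructor <;> linarith

theorem primitive {x y v w : ι → ℤ} (hP : PP x y v w) (hvw : nn v ≤ nn w) (hv0 : 0 < nn v)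
    (hmin : ∀ v' w', PP x y v' w' → nn v + nn w ≤ nn v' + nn w') (p : ℕ) (hp : p.Prime) :
    ∃ i j, ¬ (p : ℤ) ∣ v i * w j - v j * w i := by
  by_contra hcon
  push Not at hcon
  have hip := ip_le hP hmin
  obtain ⟨c₁, c₂, c₃, c₄, h1, h2⟩ := hP
  have hp2 : (2 : ℤ) ≤ p := by exact_mod_cast hp.two_le
  have hpp : Prime (p : ℤ) := Nat.prime_iff_prime_int.1 hp
  by_cases hv : ∀ i, (p : ℤ) ∣ v i
  · choose v' hv' using hv
    have h3 := hmin v' w ⟨c₁ * p, c₂, c₃ * p, c₄, fun i => by rw [h1, hv']; ring, fun i => by rw [h2, hv']; ring⟩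
    have h4 : nn v = p ^ 2 * nn v' := by
      unfold nn
      rw [Finset.mul_sum]
      exact Finset.sum_congr rfl fun i _ => by rw [hv']; ring
    have h5 : 0 < nn v' := by
      rcases (nn_nonneg v').lt_or_eq with h | h
      · exact h
      · rw [h4, ← h, mul_zero] at hv0
        exact absurd hv0 (lt_irrefl _)
    have h6 : (4 : ℤ) ≤ (p : ℤ) ^ 2 := by nlinarith
    nlinarith
  · push Not at hv
    obtain ⟨i₀, hi₀⟩ := hv
    have hcop : IsCoprime (v i₀) (p : ℤ) := (hpp.coprime_iff_not_dvd.2 hi₀).symm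
    obtain ⟨a, b, hab⟩ := hcop
    -- `a * v i₀ + b * p = 1`
    set c : ℤ := Int.bmod (a * w i₀) p with hc
    have hc1 : (p : ℤ) ∣ c - a * w i₀ := by
      have h9 : (a * w i₀) ≡ c [ZMOD p] := by
        rw [hc]
        exact (Int.bmod_emod (x := a * w i₀) (m := p)).symm
      exact h9.dvd
    have hc2 : |2 * c| ≤ p := by
      have h3 : 0 < p := hp.pos
      have h4 := Int.bmod_le (x := a * w i₀) h3
      have h5 := Int.le_bmod (x := a * w i₀) h3
      rw [← hc] at h4 h5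
      rw [abs_le]
      constructor <;> omega
    have hdiv : ∀ j, (p : ℤ) ∣ w j - c * v j := by
      intro j
      have h3 : w j - c * v j = a * (v i₀ * w j - v j * w i₀) + p * (b * w j) - (c - a * w i₀) * v j := by
        linear_combination (-w j) * hab
      rw [h3]
      exact dvd_sub (dvd_add (Dvd.dvd.mul_left (hcon i₀ j) _) (dvd_mul_right _ _)) (Dvd.dvd.mul_right hc1 _)
    choose w' hw' using hdiv
    have hw2 : ∀ j, w j = p * w' j + c * v j := fun j => by linear_combination hw' j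
    have h3 := hmin v w' ⟨c₁ + c₂ * c, c₂ * p, c₃ + c₄ * c, c₄ * p, fun i => by rw [h1, hw2]; ring,
      fun i => by rw [h2, hw2]; ring⟩
    have h4 : p ^ 2 * nn w' = nn w + 2 * (-c) * ip v w + (-c) ^ 2 * nn v := by
      rw [← nn_add]
      unfold nn
      rw [Finset.mul_sum]
      refine Finset.sum_congr rfl fun i _ => ?_
      have := hw' i
      have h5 : w i + -c * v i = p * w' i := by linear_combination this
      simp only [h5]
      ring
    have h5 : nn w ≤ nn w' := by linarith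
    have h6 : 4 * (p : ℤ) ^ 2 * nn w' ≤ 4 * nn w + 2 * p * nn v + p ^ 2 * nn v := by
      have e1 : 4 * (2 * (-c) * ip v w) ≤ 2 * p * nn v := by
        have e2 : 4 * (2 * (-c) * ip v w) ≤ |4 * (2 * (-c) * ip v w)| := le_abs_self _
        have e3 : |4 * (2 * (-c) * ip v w)| = 2 * (|2 * c| * |2 * ip v w|) := by
          rw [← abs_mul]
          have : 4 * (2 * (-c) * ip v w) = -(2 * ((2 * c) * (2 * ip v w))) := by ring
          rw [this, abs_neg, abs_mul]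
          norm_num
        have e4 : |2 * c| * |2 * ip v w| ≤ p * nn v := mul_le_mul hc2 hip (abs_nonneg _) (by positivity)
        linarith
      have e5 : 4 * ((-c) ^ 2 * nn v) ≤ p ^ 2 * nn v := by
        have e6 : (2 * c) ^ 2 ≤ (p : ℤ) ^ 2 := by
          rw [← sq_abs (2 * c)]
          exact pow_le_pow_left₀ (abs_nonneg _) hc2 2
        nlinarith
      linarith
    have h7 := mul_le_mul_of_nonneg_left h5 (show (0 : ℤ) ≤ 4 * p ^ 2 by positivity)
    have h8 := mul_le_mul_of_nonneg_left hvw (show (0 : ℤ) ≤ 2 * p + p ^ 2 by positivity)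
    have h9 : (4 : ℤ) ≤ 3 * p ^ 2 - 2 * p - 4 := by nlinarith
    have h10 : 0 < nn w := hv0.trans_le hvw
    have h11 := mul_le_mul_of_nonneg_right h9 h10.le
    nlinarith

theorem sup_spec [Nonempty ι] (v : ι → ℤ) (hv : 0 < nn v) : ∃ V : ℕ, 1 ≤ V ∧ (∀ i, |v i| ≤ V) ∧ (∃ i, |v i| = V) ∧
    (V : ℤ) ^ 2 ≤ nn v := by
  obtain ⟨i, -, hi⟩ := Finset.exists_mem_eq_sup (Finset.univ : Finset ι) Finset.univ_nonempty (fun i => (v i).natAbs)
  refine ⟨Finset.univ.sup (fun i => (v i).natAbs), ?_, fun j => ?_, ⟨i, ?_⟩, ?_⟩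
  · by_contra h
    have h0 : Finset.univ.sup (fun i => (v i).natAbs) = 0 := by omega
    have h1 : nn v = 0 := by
      unfold nn
      refine Finset.sum_eq_zero fun j _ => ?_
      have h2 := Finset.le_sup (f := fun i => (v i).natAbs) (Finset.mem_univ j)
      rw [h0] at h2
      have h3 : (v j).natAbs = 0 := Nat.le_zero.1 h2
      rw [Int.natAbs_eq_zero.1 h3]
      norm_num
    omega
  · have h2 := Finset.le_sup (f := fun i => (v i).natAbs) (Finset.mem_univ j)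
    have h3 : (((v j).natAbs : ℕ) : ℤ) ≤ ((Finset.univ.sup (fun i => (v i).natAbs) : ℕ) : ℤ) := by exact_mod_cast h2
    rwa [Int.natCast_natAbs] at h3
  · rw [hi, Int.natCast_natAbs]
  · rw [hi, Int.natCast_natAbs, sq_abs]
    exact sq_le_nn v i

theorem nn_ge {v w : ι → ℤ} (hvw : nn v ≤ nn w) (hip : |2 * ip v w| ≤ nn v) (a b : ℤ) :
    a ^ 2 * nn v + b ^ 2 * nn w ≤ 2 * nn (fun i => a * v i + b * w i) := by
  rw [nn_lin]
  have h1 : -(|a| * |b| * nn v) ≤ 2 * a * b * ip v w := by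
    have e1 : |2 * a * b * ip v w| = |a| * |b| * |2 * ip v w| := by
      rw [← abs_mul, ← abs_mul]
      congr 1
      ring
    have e2 := neg_abs_le (2 * a * b * ip v w)
    have e3 : |a| * |b| * |2 * ip v w| ≤ |a| * |b| * nn v := mul_le_mul_of_nonneg_left hip (by positivity)
    linarith
  have h2 : 2 * (|a| * |b|) ≤ a ^ 2 + b ^ 2 := by
    nlinarith [sq_nonneg (|a| - |b|), sq_abs a, sq_abs b]
  have h3 := mul_le_mul_of_nonneg_right h2 (nn_nonneg v)
  have h4 := mul_le_mul_of_nonneg_left hvw (sq_nonneg b)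
  nlinarith

theorem dvd_of_minors (v w : ι → ℤ) (h : ∀ p : ℕ, p.Prime → ∃ i j, ¬ (p : ℤ) ∣ v i * w j - v j * w i) (g d : ℤ)
    (hg : ∀ i j, g ∣ d * (v i * w j - v j * w i)) : g ∣ d := by
  classical
  set G : ℤ := Finset.gcd (Finset.univ : Finset (ι × ι)) (fun q => v q.1 * w q.2 - v q.2 * w q.1) with hG
  have h1 : IsUnit G := by
    rw [Int.isUnit_iff_natAbs_eq]
    by_contra hne
    obtain ⟨p, hp, hpG⟩ := Nat.exists_prime_and_dvd hne
    obtain ⟨i, j, hij⟩ := h p hp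
    apply hij
    have h2 : (p : ℤ) ∣ G := Int.natCast_dvd.2 hpG
    exact h2.trans (Finset.gcd_dvd (Finset.mem_univ (i, j)))
  have h2 : g ∣ Finset.gcd (Finset.univ : Finset (ι × ι)) (fun q => d * (v q.1 * w q.2 - v q.2 * w q.1)) :=
    Finset.dvd_gcd fun q _ => hg q.1 q.2
  rw [Finset.gcd_mul_left] at h2
  have h3 : g ∣ normalize d := (IsUnit.dvd_mul_right h1).1 h2
  exact h3.trans (normalize_dvd_iff.2 dvd_rfl)

theorem exists_big_minor {v w : ι → ℤ} (hvw : nn v ≤ nn w) (hv : 0 < nn v) (hip : |2 * ip v w| ≤ nn v) {V W : ℕ}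
    (hV : (V : ℤ) ^ 2 ≤ nn v) (hW : (W : ℤ) ^ 2 ≤ nn w) :
    ∃ i j, (V : ℤ) * W ≤ 2 * Fintype.card ι * |v i * w j - v j * w i| := by
  by_contra hcon
  push Not at hcon
  have h1 := lagrange v w
  have h2 : 4 * ip v w ^ 2 ≤ nn v ^ 2 := by
    have := pow_le_pow_left₀ (abs_nonneg _) hip 2
    rw [sq_abs] at this
    linarith
  have h3 : nn v ^ 2 ≤ nn v * nn w := by nlinarith
  set k : ℤ := ((Fintype.card ι : ℕ) : ℤ) with hk
  have h4 : 4 * k ^ 2 * ∑ i, ∑ j, (v i * w j - v j * w i) ^ 2 ≤ k ^ 2 * ((V : ℤ) * W) ^ 2 := by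
    have e1 : ∀ i j, 4 * k ^ 2 * (v i * w j - v j * w i) ^ 2 ≤ ((V : ℤ) * W) ^ 2 := by
      intro i j
      have e2 := (hcon i j).le
      have e3 := pow_le_pow_left₀ (by positivity) e2 2
      rw [mul_pow, mul_pow, sq_abs] at e3
      linarith
    rw [Finset.mul_sum]
    calc ∑ i, 4 * k ^ 2 * ∑ j, (v i * w j - v j * w i) ^ 2 = ∑ i, ∑ j, 4 * k ^ 2 * (v i * w j - v j * w i) ^ 2 :=
          Finset.sum_congr rfl fun i _ => by rw [Finset.mul_sum]
      _ ≤ ∑ _i : ι, ∑ _j : ι, ((V : ℤ) * W) ^ 2 := Finset.sum_le_sum fun i _ => Finset.sum_le_sum fun j _ => e1 i j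
      _ = k ^ 2 * ((V : ℤ) * W) ^ 2 := by
          simp only [Finset.sum_const, Finset.card_univ, nsmul_eq_mul, hk]
          ring
  have hne : Nonempty ι := by
    by_contra hemp
    rw [not_nonempty_iff] at hemp
    unfold nn at hv
    simp at hv
  have hk1 : 1 ≤ k := by
    have : 0 < Fintype.card ι := Fintype.card_pos
    rw [hk]; exact_mod_cast this
  have h5 : 4 * ∑ i, ∑ j, (v i * w j - v j * w i) ^ 2 ≤ ((V : ℤ) * W) ^ 2 := by
    have hk2 : 0 < k ^ 2 := by positivity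
    have h6 : k ^ 2 * (4 * ∑ i, ∑ j, (v i * w j - v j * w i) ^ 2) ≤ k ^ 2 * ((V : ℤ) * W) ^ 2 := by linarith
    exact le_of_mul_le_mul_left h6 hk2
  have h6 : ((V : ℤ) * W) ^ 2 ≤ nn v * nn w := by
    rw [mul_pow]
    exact mul_le_mul hV hW (by positivity) hv.le
  have h7 : 0 < nn v * nn w := mul_pos hv (hv.trans_le hvw)
  rw [h1] at h5
  linarith

theorem coef_le {k : ℕ} (hk : 1 ≤ k) {V : ℕ} {B : ℝ} (hB : 0 ≤ B) {a N M : ℤ} (hV : (V : ℤ) ^ 2 ≤ N)
    (hN : a ^ 2 * N ≤ 2 * M) (hM : (M : ℝ) ≤ k * B ^ 2) : |(a : ℝ)| * V ≤ 2 * k * B := by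
  have h1 : (a : ℝ) ^ 2 * (V : ℝ) ^ 2 ≤ 2 * k * B ^ 2 := by
    have e1 : ((a ^ 2 * (V : ℤ) ^ 2 : ℤ) : ℝ) ≤ ((2 * M : ℤ) : ℝ) := by
      exact_mod_cast (mul_le_mul_of_nonneg_left hV (sq_nonneg a)).trans hN
    push_cast at e1
    linarith
  have hk' : (1 : ℝ) ≤ k := by exact_mod_cast hk
  have h2 : (|(a : ℝ)| * V) ^ 2 ≤ (2 * k * B) ^ 2 := by
    rw [mul_pow, sq_abs]
    refine h1.trans ?_
    have : (2 * k * B) ^ 2 = 2 * k * B ^ 2 * (2 * k) := by ring
    rw [this]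
    exact le_mul_of_one_le_right (by positivity) (by linarith)
  exact (pow_le_pow_iff_left₀ (by positivity) (by positivity) (by norm_num)).1 h2

/-- Job Z1. -/
theorem exists_reduced_pair_int {ι : Type*} [Fintype ι] (x y : ι → ℤ)
    (hxy : ∃ i j, x i * y j - x j * y i ≠ 0) (B : ℝ)
    (hx : ∀ i, |(x i : ℝ)| ≤ B) (hy : ∀ i, |(y i : ℝ)| ≤ B) :
    ∃ (V W : ℕ) (v w : ι → ℤ) (c₁ c₂ c₃ c₄ : ℤ), 1 ≤ V ∧ 1 ≤ W ∧
      (∀ i, |v i| ≤ V) ∧ (∃ i, |v i| = V) ∧ (∀ i, |w i| ≤ W) ∧ (∃ i, |w i| = W) ∧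
      (∀ i, x i = c₁ * v i + c₂ * w i) ∧ (∀ i, y i = c₃ * v i + c₄ * w i) ∧
      |(c₁ : ℝ)| * V ≤ 2 * Fintype.card ι * B ∧ |(c₃ : ℝ)| * V ≤ 2 * Fintype.card ι * B ∧
      |(c₂ : ℝ)| * W ≤ 2 * Fintype.card ι * B ∧ |(c₄ : ℝ)| * W ≤ 2 * Fintype.card ι * B ∧
      (V : ℝ) ≤ 2 * Fintype.card ι * B ∧ (W : ℝ) ≤ 2 * Fintype.card ι * B ∧
      (∀ g : ℤ, (∀ i j, g ∣ x i * y j - x j * y i) →
        ∃ i j, |(g : ℝ)| * V * W ≤ 2 * Fintype.card ι * |((x i * y j - x j * y i : ℤ) : ℝ)|) := by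
  obtain ⟨i₀, j₀, hij⟩ := hxy
  haveI : Nonempty ι := ⟨i₀⟩
  obtain ⟨v, w, hP, hvw, hmin⟩ := exists_min x y
  have hip := ip_le hP hmin
  have hP' := hP
  obtain ⟨c₁, c₂, c₃, c₄, h1, h2⟩ := hP
  have hminor : ∀ i j, x i * y j - x j * y i = (c₁ * c₄ - c₂ * c₃) * (v i * w j - v j * w i) := by
    intro i j
    rw [h1, h1, h2, h2]
    ring
  have hdet : c₁ * c₄ - c₂ * c₃ ≠ 0 := by
    intro h0
    apply hij
    rw [hminor, h0, zero_mul]
  have hv0 : 0 < nn v := by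
    rcases (nn_nonneg v).lt_or_eq with h | h
    · exact h
    · exfalso
      apply hij
      have h3 : ∀ i, v i = 0 := by
        intro i
        have := sq_le_nn v i
        rw [← h] at this
        exact pow_eq_zero_iff (two_ne_zero) |>.1 (le_antisymm this (sq_nonneg _))
      rw [hminor, h3, h3]
      ring
  have hw0 : 0 < nn w := hv0.trans_le hvw
  obtain ⟨V, hV1, hV2, hV3, hV4⟩ := sup_spec v hv0
  obtain ⟨W, hW1, hW2, hW3, hW4⟩ := sup_spec w hw0
  have hB : 0 ≤ B := (abs_nonneg _).trans (hx i₀)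
  have hk : 1 ≤ Fintype.card ι := Fintype.card_pos
  have hnx : ∀ z : ι → ℤ, (∀ i, |(z i : ℝ)| ≤ B) → ((nn z : ℤ) : ℝ) ≤ (Fintype.card ι : ℕ) * B ^ 2 := by
    intro z hz
    unfold nn
    push_cast
    calc ∑ i, (z i : ℝ) ^ 2 ≤ ∑ _i : ι, B ^ 2 := by
          refine Finset.sum_le_sum fun i _ => ?_
          rw [← sq_abs]
          exact pow_le_pow_left₀ (abs_nonneg _) (hz i) 2
      _ = _ := by simp
  have hxx : c₁ ^ 2 * nn v + c₂ ^ 2 * nn w ≤ 2 * nn x := by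
    have : x = fun i => c₁ * v i + c₂ * w i := funext h1
    rw [this]
    exact nn_ge hvw hip c₁ c₂
  have hyy : c₃ ^ 2 * nn v + c₄ ^ 2 * nn w ≤ 2 * nn y := by
    have : y = fun i => c₃ * v i + c₄ * w i := funext h2
    rw [this]
    exact nn_ge hvw hip c₃ c₄
  have hc1 : |(c₁ : ℝ)| * V ≤ 2 * Fintype.card ι * B :=
    coef_le hk hB hV4 (by nlinarith [mul_nonneg (sq_nonneg c₂) hw0.le]) (hnx x hx)
  have hc2 : |(c₂ : ℝ)| * W ≤ 2 * Fintype.card ι * B :=
    coef_le hk hB hW4 (by nlinarith [mul_nonneg (sq_nonneg c₁) hv0.le]) (hnx x hx)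
  have hc3 : |(c₃ : ℝ)| * V ≤ 2 * Fintype.card ι * B :=
    coef_le hk hB hV4 (by nlinarith [mul_nonneg (sq_nonneg c₄) hw0.le]) (hnx y hy)
  have hc4 : |(c₄ : ℝ)| * W ≤ 2 * Fintype.card ι * B :=
    coef_le hk hB hW4 (by nlinarith [mul_nonneg (sq_nonneg c₃) hv0.le]) (hnx y hy)
  have hone : ∀ c : ℤ, c ≠ 0 → ∀ U : ℕ, |(c : ℝ)| * U ≤ 2 * Fintype.card ι * B → (U : ℝ) ≤ 2 * Fintype.card ι * B := by
    intro c hc U h
    have h3 : (1 : ℝ) ≤ |(c : ℝ)| := by
      have := Int.one_le_abs hc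
      exact_mod_cast this
    nlinarith [Nat.cast_nonneg (α := ℝ) U]
  refine ⟨V, W, v, w, c₁, c₂, c₃, c₄, hV1, hW1, hV2, hV3, hW2, hW3, h1, h2, hc1, hc3, hc2, hc4, ?_, ?_, ?_⟩
  · by_cases h : c₁ = 0
    · by_cases h' : c₃ = 0
      · exfalso; apply hdet; rw [h, h']; ring
      · exact hone c₃ h' V hc3
    · exact hone c₁ h V hc1
  · by_cases h : c₂ = 0
    · by_cases h' : c₄ = 0
      · exfalso; apply hdet; rw [h, h']; ring
      · exact hone c₄ h' W hc4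
    · exact hone c₂ h W hc2
  · intro g hg
    have hgd : g ∣ c₁ * c₄ - c₂ * c₃ :=
      dvd_of_minors v w (fun p hp => primitive hP' hvw hv0 hmin p hp) g _ (fun i j => by rw [← hminor]; exact hg i j)
    have hgle : |g| ≤ |c₁ * c₄ - c₂ * c₃| := Int.le_of_dvd (abs_pos.2 hdet) ((abs_dvd_abs _ _).2 hgd)
    obtain ⟨i, j, hbig⟩ := exists_big_minor hvw hv0 hip hV4 hW4
    refine ⟨i, j, ?_⟩
    have h3 : |g| * V * W ≤ 2 * Fintype.card ι * |x i * y j - x j * y i| := by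
      rw [hminor, abs_mul]
      calc |g| * V * W = |g| * (V * W) := by ring
        _ ≤ |c₁ * c₄ - c₂ * c₃| * (2 * Fintype.card ι * |v i * w j - v j * w i|) :=
            mul_le_mul hgle hbig (by positivity) (abs_nonneg _)
        _ = _ := by ring
    exact_mod_cast h3

end Pool.Agent.Y796.RP
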